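import Pool.Agent.Q297.SpG

/-!
Span sets of Knight's embedded random walks (MP_512e2b_pr).

Let `B` be a standard Brownian motion on an arbitrary probability space (Mathlib's
`IsBrownianReal`: the finite-dimensional laws of Brownian motion and almost surely continuous
paths). The rescaled span sets of Knight's embedded random walks converge in probability, in the
Hausdorff distance, to the span set of `B` on `[0,1]`.
-/

open MeasureTheory ProbabilityTheory Filter Set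
open scoped Topology NNReal ENNReal

namespace Pool.Agent.Results.MP_512e2b_pr.KnightSpans

/-- the span set `{t - s : 0 ≤ s ≤ t ≤ 1, f s = f t}` of a path on `[0,1]` -/
def spanSet (f : ℝ≥0 → ℝ) : Set ℝ :=
  {h | ∃ s t : ℝ≥0, s ≤ t ∧ t ≤ 1 ∧ f s = f t ∧ h = (t : ℝ) - s}

/-- Knight's times: `τ 0 = 0` and `τ (k+1)` is the infimum of the times `t > τ k` at which
`|f t - f (τ k)| = 2⁻ⁿ` -/
noncomputable def tau (f : ℝ≥0 → ℝ) (n : ℕ) : ℕ → ℝ≥0
  | 0 => 0
  | k + 1 => sInf {t : ℝ≥0 | tau f n k < t ∧ |f t - f (tau f n k)| = (1 / 2) ^ n}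

/-- Knight's embedded walk `RW k = 2ⁿ f (τ k)` -/
noncomputable def RW (f : ℝ≥0 → ℝ) (n k : ℕ) : ℝ := 2 ^ n * f (tau f n k)

/-- the rescaled discrete span set `2⁻²ⁿ {k - l ≥ 0 : RW k = RW l, 0 ≤ k, l ≤ 2²ⁿ}` -/
def spanKnight (f : ℝ≥0 → ℝ) (n : ℕ) : Set ℝ :=
  {h | ∃ k l : ℕ, k ≤ 2 ^ (2 * n) ∧ l ≤ 2 ^ (2 * n) ∧ 0 ≤ (k : ℝ) - l ∧ RW f n k = RW f n l ∧
    h = ((k : ℝ) - l) / 2 ^ (2 * n)}

/-- **Theorem.** For every Brownian motion and every `ε > 0`, the probability that the Hausdorff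
distance between the rescaled span set of Knight's `n`-th walk and the span set of the Brownian
motion exceeds `ε` tends to zero. -/
theorem result {Ω : Type*} [MeasurableSpace Ω] (P : Measure Ω) (B : ℝ≥0 → Ω → ℝ)
    (hB : IsBrownianReal B P) (ε : ℝ) (hε : 0 < ε) :
    Tendsto (fun n : ℕ => P {ω | ENNReal.ofReal ε <
      Metric.hausdorffEDist (spanKnight (fun t => B t ω) n) (spanSet (fun t => B t ω))})
      atTop (𝓝 0) := by
  obtain ⟨b, hb, hbB⟩ := Q297.Spn.exists_path hB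
  set W : Measure Q297.Prepend.Path := P.map b with hWdef
  have hW : IsBrownianReal (fun (t : ℝ≥0) (x : Q297.Prepend.Path) => x t) W :=
    Q297.Spn.wiener_of_path hB hb hbB
  have hcore := Q297.Spn.core hW hε
  have h4 : Tendsto (fun n : ℕ => 4 ^ n) atTop atTop := tendsto_pow_atTop_atTop_of_one_lt (by norm_num)
  have hcore2 := hcore.comp h4
  refine tendsto_of_tendsto_of_tendsto_of_le_of_le tendsto_const_nhds hcore2 (fun n => zero_le)
    (fun n => ?_)
  set Q : Set Q297.Prepend.Path := {x | ENNReal.ofReal ε <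
      Metric.hausdorffEDist (spanKnight x n) (spanSet x)} with hQ
  have hN : (((4 ^ n : ℕ) : ℝ≥0)) ≠ 0 := by positivity
  have h1 : P {ω | ENNReal.ofReal ε <
      Metric.hausdorffEDist (spanKnight (fun t => B t ω) n) (spanSet (fun t => B t ω))} =
      P (b ⁻¹' Q) := by
    refine measure_congr ?_
    filter_upwards [hbB] with ω hω
    have e : (fun t => B t ω) = (b ω : ℝ≥0 → ℝ) := by
      funext t; exact (hω t).symm
    apply propext
    show (ENNReal.ofReal ε <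
      Metric.hausdorffEDist (spanKnight (fun t => B t ω) n) (spanSet (fun t => B t ω))) ↔
      (ENNReal.ofReal ε < Metric.hausdorffEDist (spanKnight (b ω) n) (spanSet (b ω)))
    rw [e]
  have h2 : P (b ⁻¹' Q) ≤ W Q := Measure.le_map_apply hb.aemeasurable _
  have h3 : W Q ≤ W (Q297.Spn.sc ((4 ^ n : ℕ) : ℝ≥0) ⁻¹' Q) := Q297.Spn.sc_outer hW hN Q
  rw [h1]
  refine (h2.trans h3).trans ?_
  refine measure_mono_ae ?_
  filter_upwards [Q297.Spn.ae_Gd hW] with x hx hxQ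
  have hxQ' : ENNReal.ofReal ε < Metric.hausdorffEDist
      (spanKnight (Q297.Spn.sc ((4 ^ n : ℕ) : ℝ≥0) x) n)
      (spanSet (Q297.Spn.sc ((4 ^ n : ℕ) : ℝ≥0) x)) := hxQ
  show ¬ Q297.Spn.Near ε (Q297.Spn.SpW (fun k => Q297.Spn.Z k x) (4 ^ n))
    (Q297.Spn.Sp (Q297.Spn.sc ((4 ^ n : ℕ) : ℝ≥0) x))
  intro hnear
  have hle := Q297.Spn.near_edist hnear
  have htau : ∀ k, tau (Q297.Spn.sc ((4 ^ n : ℕ) : ℝ≥0) x) n k =
      Q297.Spn.ktau (Q297.Spn.sc ((4 ^ n : ℕ) : ℝ≥0) x) n k := by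
    intro k
    induction k with
    | zero => rfl
    | succ k ih => rw [tau, Q297.Spn.ktau, ih]
  have hRW : ∀ k, RW (Q297.Spn.sc ((4 ^ n : ℕ) : ℝ≥0) x) n k = (Q297.Spn.Z k x : ℝ) := by
    intro k
    rw [RW, htau, Q297.Spn.kwalk_eq hx]
  have e24 : (2 : ℕ) ^ (2 * n) = 4 ^ n := by rw [pow_mul]; norm_num
  have e24' : (2 : ℝ) ^ (2 * n) = ((4 ^ n : ℕ) : ℝ) := by rw [pow_mul]; push_cast; norm_num
  have hset : spanKnight (Q297.Spn.sc ((4 ^ n : ℕ) : ℝ≥0) x) n =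
      Q297.Spn.SpW (fun k => Q297.Spn.Z k x) (4 ^ n) := by
    ext h
    simp only [spanKnight, Q297.Spn.SpW, mem_ofPred_eq, hRW, e24, e24']
    constructor
    · rintro ⟨k, l, hk, hl, hkl, hz, rfl⟩
      refine ⟨l, k, ?_, hk, by exact_mod_cast hz, rfl⟩
      have : (l : ℝ) ≤ k := by linarith
      exact_mod_cast this
    · rintro ⟨l, k, hlk, hk, hz, rfl⟩
      refine ⟨k, l, hk, hlk.trans hk, ?_, by exact_mod_cast hz, rfl⟩
      have : (l : ℝ) ≤ k := by exact_mod_cast hlk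
      linarith
  have hset2 : spanSet (Q297.Spn.sc ((4 ^ n : ℕ) : ℝ≥0) x) =
      Q297.Spn.Sp (Q297.Spn.sc ((4 ^ n : ℕ) : ℝ≥0) x) := rfl
  rw [hset, hset2] at hxQ'
  exact absurd hle (not_le.2 hxQ')

end Pool.Agent.Results.MP_512e2b_pr.KnightSpans
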